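import Pool.Agent.Y453.HB.Stm

/-!
Project HB (helper453), job PROD: infinite products of shrinking copies.
-/

set_option autoImplicit false

open Set Filter Topology Function

namespace Pool.Agent.Y496.HB

open Pool.Agent.Y453.HB

section gen

variable {n : ℕ}

/-- the homeomorphisms which are the identity off `S` -/
def fixOff (S : Set (E n)) : Subgroup (E n ≃ₜ E n) where
  carrier := {f | ∀ x, x ∉ S → f x = x}
  mul_mem' := by
    intro f g hf hg x hx
    rw [mul_apply, hg x hx, hf x hx]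
  one_mem' := fun x _ => rfl
  inv_mem' := by
    intro f hf x hx
    have h1 := inv_apply_self f x
    rwa [hf x hx] at h1

theorem mem_fixOff {S : Set (E n)} {f : E n ≃ₜ E n} : f ∈ fixOff S ↔ ∀ x, x ∉ S → f x = x :=
  Iff.rfl

theorem maps {S : Set (E n)} {f : E n ≃ₜ E n} (hf : f ∈ fixOff S) {x : E n} (hx : x ∈ S) :
    f x ∈ S := by
  by_contra h
  have h1 := hf _ h
  have h2 : f x = x := f.injective h1
  rw [h2] at h
  exact h hx

theorem comm {S T : Set (E n)} (hST : Disjoint S T) {f h : E n ≃ₜ E n} (hf : f ∈ fixOff S)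
    (hh : h ∈ fixOff T) : f * h = h * f := by
  ext1 x
  rw [mul_apply, mul_apply]
  by_cases hx : x ∈ S
  · have h1 : x ∉ T := fun h' => Set.disjoint_left.mp hST hx h'
    have h2 : f x ∉ T := fun h' => Set.disjoint_left.mp hST (maps hf hx) h'
    rw [hh x h1, hh _ h2]
  · by_cases hx' : x ∈ T
    · have h2 : h x ∉ S := fun h' => Set.disjoint_left.mp hST h' (maps hh hx')
      rw [hf x hx, hf _ h2]
    · rw [hf x hx, hh x hx', hf x hx]

theorem dil_pow_apply (s : ℝ) (hs : 0 < s) (k : ℕ) (x : E n) :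
    ((dil s hs : E n ≃ₜ E n) ^ k) x = s ^ k • x := by
  induction k generalizing x with
  | zero => simp
  | succ k ih =>
    rw [pow_succ, mul_apply, ih, dil_apply, smul_smul, pow_succ]

theorem dil_pow_inv_apply (s : ℝ) (hs : 0 < s) (k : ℕ) (x : E n) :
    ((dil s hs : E n ≃ₜ E n) ^ k)⁻¹ x = (s ^ k)⁻¹ • x := by
  have h1 : ((dil s hs : E n ≃ₜ E n) ^ k) ((s ^ k)⁻¹ • x) = x := by
    rw [dil_pow_apply, smul_smul, mul_inv_cancel₀ (pow_ne_zero k hs.ne'), one_smul]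
  have h2 := inv_apply_self ((dil s hs : E n ≃ₜ E n) ^ k) ((s ^ k)⁻¹ • x)
  rwa [h1] at h2

theorem cp_apply (s : ℝ) (hs : 0 < s) (g : E n ≃ₜ E n) (k : ℕ) (x : E n) :
    cp s hs g k x = s ^ k • g ((s ^ k)⁻¹ • x) := by
  unfold cp
  rw [mul_apply, mul_apply, dil_pow_inv_apply, dil_pow_apply]

end gen

section main

variable {n : ℕ} (s : ℝ) (hs : 0 < s) (hs1 : s < 1) (ρ : ℝ) (hρ : 0 < ρ) (g : E n ≃ₜ E n)

/-- the shells -/
def Sh (n : ℕ) (s ρ : ℝ) (k : ℕ) : Set (E n) :=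
  {x | (s ^ (k + 1) * ρ) ^ 2 < Q x ∧ Q x ≤ (s ^ k * ρ) ^ 2}

include hs hs1 hρ in
theorem rad_anti {k m : ℕ} (h : k ≤ m) : (s ^ m * ρ) ^ 2 ≤ (s ^ k * ρ) ^ 2 := by
  apply pow_le_pow_left₀ (by positivity)
  exact mul_le_mul_of_nonneg_right (pow_le_pow_of_le_one hs.le hs1.le h) hρ.le

theorem cp_mem (hQ : ∀ (c : ℝ) (x : E n), Q (c • x) = c ^ 2 * Q x)
    (hg : ∀ x, ¬ ((s * ρ) ^ 2 < Q x ∧ Q x ≤ ρ ^ 2) → g x = x) (k : ℕ) :
    cp s hs g k ∈ fixOff (Sh n s ρ k) := by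
  intro x hx
  rw [cp_apply]
  have hk : (0 : ℝ) < s ^ k := pow_pos hs k
  have h1 : g ((s ^ k)⁻¹ • x) = (s ^ k)⁻¹ • x := by
    apply hg
    rintro ⟨h2, h3⟩
    apply hx
    rw [hQ, inv_pow] at h2 h3
    have hk2 : (0 : ℝ) < (s ^ k) ^ 2 := by positivity
    refine ⟨?_, ?_⟩
    · have h4 := mul_lt_mul_of_pos_left h2 hk2
      rw [mul_inv_cancel_left₀ hk2.ne'] at h4
      refine lt_of_eq_of_lt ?_ h4
      ring
    · have h4 := mul_le_mul_of_nonneg_left h3 hk2.le
      rw [mul_inv_cancel_left₀ hk2.ne'] at h4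
      refine h4.trans_eq ?_
      ring
  rw [h1, smul_smul, mul_inv_cancel₀ hk.ne', one_smul]

include hs1 hρ in
/-- the finite products are the identity near zero and outside the ball -/
theorem F_mem (hcp : ∀ k, cp s hs g k ∈ fixOff (Sh n s ρ k)) (b : ℕ → ℤ) (m : ℕ) :
    F s hs g b m ∈ fixOff {x : E n | (s ^ m * ρ) ^ 2 < Q x ∧ Q x ≤ ρ ^ 2} := by
  induction m with
  | zero => exact Subgroup.one_mem _
  | succ m ih =>
    intro x hx
    have h1 : x ∉ Sh n s ρ m := by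
      rintro ⟨h2, h3⟩
      apply hx
      refine ⟨h2, h3.trans ?_⟩
      have := rad_anti s hs hs1 ρ hρ (Nat.zero_le m)
      rwa [pow_zero, one_mul] at this
    have h2 : (cp s hs g m ^ b m) x = x := (Subgroup.zpow_mem _ (hcp m) (b m)) x h1
    show (F s hs g b m * cp s hs g m ^ b m) x = x
    rw [mul_apply, h2]
    apply ih
    rintro ⟨h3, h4⟩
    exact hx ⟨lt_of_le_of_lt (rad_anti s hs hs1 ρ hρ (Nat.le_succ m)) h3, h4⟩

include hs1 hρ in
theorem F_stable (hcp : ∀ k, cp s hs g k ∈ fixOff (Sh n s ρ k)) (b : ℕ → ℤ) {m M : ℕ}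
    (hmM : m ≤ M) {x : E n} (hx : (s ^ m * ρ) ^ 2 < Q x) :
    F s hs g b M x = F s hs g b m x := by
  induction M, hmM using Nat.le_induction with
  | base => rfl
  | succ M hM ih =>
    have h1 : x ∉ Sh n s ρ M := by
      rintro ⟨_, h3⟩
      exact absurd (h3.trans (rad_anti s hs hs1 ρ hρ hM)) (not_le.mpr hx)
    have h2 : (cp s hs g M ^ b M) x = x := (Subgroup.zpow_mem _ (hcp M) (b M)) x h1
    show (F s hs g b M * cp s hs g M ^ b M) x = _
    rw [mul_apply, h2, ih]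

include hs1 hρ in
theorem F_ball (hcp : ∀ k, cp s hs g k ∈ fixOff (Sh n s ρ k)) (b : ℕ → ℤ) (m M : ℕ) :
    ∀ {x : E n}, Q x ≤ (s ^ m * ρ) ^ 2 → Q (F s hs g b M x) ≤ (s ^ m * ρ) ^ 2 := by
  induction M with
  | zero => intro x hx; exact hx
  | succ M ih =>
    intro x hx
    show Q ((F s hs g b M * cp s hs g M ^ b M) x) ≤ _
    rw [mul_apply]
    apply ih
    have hmem := Subgroup.zpow_mem _ (hcp M) (b M)
    by_cases h1 : x ∈ Sh n s ρ M
    · have h2 := maps hmem h1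
      have h3 : m ≤ M := by
        by_contra h4
        rw [not_le] at h4
        have h5 := rad_anti s hs hs1 ρ hρ (Nat.succ_le_of_lt h4)
        exact absurd (hx.trans h5) (not_le.mpr h1.1)
      exact h2.2.trans (rad_anti s hs hs1 ρ hρ h3)
    · rw [hmem x h1]
      exact hx

include hs1 hρ in
theorem F_add (hcp : ∀ k, cp s hs g k ∈ fixOff (Sh n s ρ k)) (b b' : ℕ → ℤ) (m : ℕ) :
    F s hs g (b + b') m = F s hs g b m * F s hs g b' m := by
  induction m with
  | zero => exact (mul_one _).symm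
  | succ m ih =>
    have hc : F s hs g b' m * cp s hs g m ^ b m = cp s hs g m ^ b m * F s hs g b' m := by
      refine comm ?_ (F_mem s hs hs1 ρ hρ g hcp b' m) (Subgroup.zpow_mem _ (hcp m) (b m))
      rw [Set.disjoint_left]
      rintro x ⟨h1, _⟩ ⟨_, h2⟩
      exact absurd h2 (not_le.mpr h1)
    show F s hs g (b + b') m * cp s hs g m ^ (b m + b' m) =
      (F s hs g b m * cp s hs g m ^ b m) * (F s hs g b' m * cp s hs g m ^ b' m)
    rw [ih, zpow_add]
    calc F s hs g b m * F s hs g b' m * (cp s hs g m ^ b m * cp s hs g m ^ b' m)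
        = F s hs g b m * (F s hs g b' m * cp s hs g m ^ b m) * cp s hs g m ^ b' m := by group
      _ = _ := by rw [hc]; group

theorem F_zero (m : ℕ) : F s hs g (0 : ℕ → ℤ) m = 1 := by
  induction m with
  | zero => rfl
  | succ m ih =>
    show F s hs g (0 : ℕ → ℤ) m * cp s hs g m ^ (0 : ℤ) = 1
    rw [ih, zpow_zero, mul_one]

open Classical in
/-- an index from which on the products are constant -/
noncomputable def idx (s ρ : ℝ) (x : E n) : ℕ :=
  if h : ∃ m : ℕ, (s ^ m * ρ) ^ 2 < Q x then h.choose else 0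

/-- the infinite product -/
noncomputable def p (ρ : ℝ) (b : ℕ → ℤ) (x : E n) : E n := F s hs g b (idx s ρ x) x

include hs1 hρ in
theorem F_eq_p (hcp : ∀ k, cp s hs g k ∈ fixOff (Sh n s ρ k)) (b : ℕ → ℤ) (x : E n) {M : ℕ}
    (hM : idx s ρ x ≤ M) : F s hs g b M x = p s hs g ρ b x := by
  unfold p
  unfold idx at hM ⊢
  split_ifs at hM ⊢ with h
  · exact F_stable s hs hs1 ρ hρ g hcp b hM h.choose_spec
  · push Not at h
    have h1 : ∀ m, F s hs g b m x = x := fun m =>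
      F_mem s hs hs1 ρ hρ g hcp b m x fun h2 => absurd (h m) (not_le.mpr h2.1)
    rw [h1, h1]

include hs1 hρ in
theorem p_add (hcp : ∀ k, cp s hs g k ∈ fixOff (Sh n s ρ k)) (b b' : ℕ → ℤ) (x : E n) :
    p s hs g ρ (b + b') x = p s hs g ρ b (p s hs g ρ b' x) := by
  set M := max (idx s ρ x) (idx s ρ (p s hs g ρ b' x)) with hM
  rw [← F_eq_p s hs hs1 ρ hρ g hcp (b + b') x (M := M) (le_max_left _ _),
    ← F_eq_p s hs hs1 ρ hρ g hcp b _ (M := M) (le_max_right _ _), F_add s hs hs1 ρ hρ g hcp,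
    mul_apply, F_eq_p s hs hs1 ρ hρ g hcp b' x (le_max_left _ _)]

theorem p_zero (ρ : ℝ) (x : E n) : p s hs g ρ (0 : ℕ → ℤ) x = x := by
  unfold p
  rw [F_zero]
  rfl

include hs1 hρ in
theorem p_inv (hcp : ∀ k, cp s hs g k ∈ fixOff (Sh n s ρ k)) (b : ℕ → ℤ) (x : E n) :
    p s hs g ρ (-b) (p s hs g ρ b x) = x := by
  rw [← p_add s hs hs1 ρ hρ g hcp, neg_add_cancel, p_zero]

include hs1 hρ in
theorem p_dist (hn : ∀ x : E n, ‖x‖ ≤ √(Q x)) (hcp : ∀ k, cp s hs g k ∈ fixOff (Sh n s ρ k))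
    (b : ℕ → ℤ) (m : ℕ) (x : E n) :
    dist (p s hs g ρ b x) (F s hs g b m x) ≤ 2 * (s ^ m * ρ) := by
  have hr : 0 ≤ s ^ m * ρ := by positivity
  by_cases h : (s ^ m * ρ) ^ 2 < Q x
  · have h1 : F s hs g b (max m (idx s ρ x)) x = F s hs g b m x :=
      F_stable s hs hs1 ρ hρ g hcp b (le_max_left _ _) h
    rw [← F_eq_p s hs hs1 ρ hρ g hcp b x (le_max_right m _), h1, dist_self]
    linarith
  · rw [not_lt] at h
    have h1 : F s hs g b m x = x :=
      F_mem s hs hs1 ρ hρ g hcp b m x fun h2 => absurd h (not_le.mpr h2.1)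
    have h2 : Q (p s hs g ρ b x) ≤ (s ^ m * ρ) ^ 2 := F_ball s hs hs1 ρ hρ g hcp b m _ h
    have h3 : ∀ y : E n, Q y ≤ (s ^ m * ρ) ^ 2 → ‖y‖ ≤ s ^ m * ρ := by
      intro y hy
      refine (hn y).trans ?_
      rw [← Real.sqrt_sq hr]
      exact Real.sqrt_le_sqrt hy
    rw [h1, dist_eq_norm]
    refine (norm_sub_le _ _).trans ?_
    have h4 := h3 _ h2
    have h5 := h3 _ h
    linarith

include hs1 hρ in
theorem p_cont (hn : ∀ x : E n, ‖x‖ ≤ √(Q x)) (hcp : ∀ k, cp s hs g k ∈ fixOff (Sh n s ρ k))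
    (b : ℕ → ℤ) : Continuous (p s hs g ρ b) := by
  have h1 : TendstoUniformly (fun (m : ℕ) (x : E n) => F s hs g b m x) (p s hs g ρ b) atTop := by
    rw [Metric.tendstoUniformly_iff]
    intro ε hε
    have h2 : Tendsto (fun m : ℕ => 2 * (s ^ m * ρ)) atTop (𝓝 0) := by
      have h3 := ((tendsto_pow_atTop_nhds_zero_of_lt_one hs.le hs1).mul_const ρ).const_mul 2
      simpa using h3
    filter_upwards [h2.eventually_lt_const hε] with m hm x
    exact lt_of_le_of_lt (p_dist s hs hs1 ρ hρ g hn hcp b m x) hm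
  exact h1.continuous (Eventually.of_forall fun m => (F s hs g b m).continuous).frequently

end main

theorem cp_succ {n : ℕ} (s : ℝ) (hs : 0 < s) (g : E n ≃ₜ E n) (k : ℕ) :
    cp s hs g (k + 1) = dil s hs * cp s hs g k * (dil s hs)⁻¹ := by
  unfold cp
  rw [pow_succ']
  group

theorem F_shift {n : ℕ} (s : ℝ) (hs : 0 < s) (g : E n ≃ₜ E n) (b b' : ℕ → ℤ) (h0 : b' 0 = 0)
    (h1 : ∀ k, b' (k + 1) = b k) (m : ℕ) :
    F s hs g b' (m + 1) = dil s hs * F s hs g b m * (dil s hs)⁻¹ := by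
  induction m with
  | zero =>
    show (1 : E n ≃ₜ E n) * cp s hs g 0 ^ b' 0 = dil s hs * 1 * (dil s hs)⁻¹
    rw [h0, zpow_zero, mul_one, mul_one, mul_inv_cancel]
  | succ m ih =>
    show F s hs g b' (m + 1) * cp s hs g (m + 1) ^ b' (m + 1) =
      dil s hs * (F s hs g b m * cp s hs g m ^ b m) * (dil s hs)⁻¹
    rw [ih, h1, cp_succ, conj_zpow]
    group

theorem prod : S_TRI → S_PROD := by
  intro hT n s hs hs1 ρ hρ g hg
  obtain ⟨_, hn, hQ, _, _, _, _⟩ := hT n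
  have hcp : ∀ k, cp s hs g k ∈ fixOff (Sh n s ρ k) := cp_mem s hs ρ g hQ hg
  refine ⟨fun b => {
    toFun := p s hs g ρ b
    invFun := p s hs g ρ (-b)
    left_inv := fun x => p_inv s hs hs1 ρ hρ g hcp b x
    right_inv := fun x => by
      have := p_inv s hs hs1 ρ hρ g hcp (-b) x
      rwa [neg_neg] at this
    continuous_toFun := p_cont s hs hs1 ρ hρ g hn hcp b
    continuous_invFun := p_cont s hs hs1 ρ hρ g hn hcp (-b) }, ?_, ?_, ?_, ?_, ?_⟩
  · intro b b'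
    ext1 x
    exact p_add s hs hs1 ρ hρ g hcp b b' x
  · intro b h0 h1
    ext1 x
    have h2 : ∀ m, F s hs g b (m + 1) = g := by
      intro m
      induction m with
      | zero =>
        show (1 : E n ≃ₜ E n) * cp s hs g 0 ^ b 0 = g
        rw [h0, zpow_one, one_mul]
        unfold cp
        rw [pow_zero, one_mul, inv_one, mul_one]
      | succ m ih =>
        show F s hs g b (m + 1) * cp s hs g (m + 1) ^ b (m + 1) = g
        rw [ih, h1, zpow_zero, mul_one]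
    show p s hs g ρ b x = g x
    rw [← F_eq_p s hs hs1 ρ hρ g hcp b x (Nat.le_succ _), h2]
  · intro b b' h0 h1
    ext1 x
    show p s hs g ρ b' x = s • p s hs g ρ b (s⁻¹ • x)
    set M := max (idx s ρ x) (idx s ρ (s⁻¹ • x)) with hM
    rw [← F_eq_p s hs hs1 ρ hρ g hcp b' x (M := M + 1) ((le_max_left _ _).trans (Nat.le_succ _)),
      ← F_eq_p s hs hs1 ρ hρ g hcp b (s⁻¹ • x) (M := M) (le_max_right _ _),
      F_shift s hs g b b' h0 h1]
    rfl
  · intro b x hx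
    show p s hs g ρ b x = x
    unfold p
    exact F_mem s hs hs1 ρ hρ g hcp b _ x fun h2 => absurd h2.2 (not_le.mpr hx)
  · intro b m x
    exact p_dist s hs hs1 ρ hρ g hn hcp b m x

end Pool.Agent.Y496.HB
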